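import Pool.Agent.R83.EOBound

set_option autoImplicit false

/-!
# MP_865e4a_co, Q1

For every edge-ordered graph `G` with at least one edge, `ssat_e(n, G) = O(n log n / log log n)`.  Hence there
is no edge-ordered graph `G` with `ssat_e(n, G) = Θ(n log n)`.
-/

namespace Pool.Agent.Results.MP_865e4a_co.NoThetaNLogN

open Filter Asymptotics Pool.Agent.R83.EOSat

lemma tendsto_loglog : Tendsto (fun n : ℕ => Real.log (Real.log n)) atTop atTop :=
  Real.tendsto_log_atTop.comp (Real.tendsto_log_atTop.comp tendsto_natCast_atTop_atTop)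

lemma little : (fun n : ℕ => (n : ℝ) * Real.log n / Real.log (Real.log n)) =o[atTop]
    (fun n : ℕ => (n : ℝ) * Real.log n) := by
  have h1 : (fun n : ℕ => (n : ℝ) * Real.log n / Real.log (Real.log n)) =
      (fun n : ℕ => ((n : ℝ) * Real.log n) * (Real.log (Real.log n))⁻¹) := by
    funext n; rw [div_eq_mul_inv]
  rw [h1]
  have h2 : (fun n : ℕ => (Real.log (Real.log n))⁻¹) =o[atTop] (fun _ : ℕ => (1 : ℝ)) := by
    rw [isLittleO_one_iff]
    exact tendsto_loglog.inv_tendsto_atTop
  have h3 := (isBigO_refl (fun n : ℕ => (n : ℝ) * Real.log n) atTop).mul_isLittleO h2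
  simpa using h3

/-- If `G` has no edge then only complete graphs e-semisaturate `G`. -/
lemma ssatE_edgeless {k : ℕ} (G : EOGraph (Fin k)) (hG : ¬ G.graph.edgeSet.Nonempty) (n : ℕ) :
    ssatE n G = n.choose 2 := by
  classical
  have hG' : G.graph.edgeSet = ∅ := Set.not_nonempty_iff_eq_empty.mp hG
  have hall : ∀ H : EOGraph (Fin n), ESemisat G H → H.graph = ⊤ := by
    intro H hH
    ext u v
    rw [SimpleGraph.top_adj]
    refine ⟨fun h => H.graph.ne_of_adj h, ?_⟩
    intro huv
    by_contra hadj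
    have hfin : (H.lab '' H.graph.edgeSet).Finite := Set.toFinite _
    obtain ⟨x, hx⟩ := hfin.exists_notMem
    obtain ⟨φ, _, e, he, _⟩ := hH u v huv hadj x (fun e he h => hx ⟨e, he, h⟩)
    rw [hG'] at he
    exact he
  have hcard : (⊤ : SimpleGraph (Fin n)).edgeSet.ncard = n.choose 2 := by
    rw [← SimpleGraph.coe_edgeFinset, Set.ncard_coe_finset, SimpleGraph.card_edgeFinset_top_eq_card_choose_two,
      Fintype.card_fin]
  have hset : {t | ∃ H : EOGraph (Fin n), ESemisat G H ∧ H.graph.edgeSet.ncard = t} = {n.choose 2} := by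
    ext t
    constructor
    · rintro ⟨H, hH, rfl⟩
      rw [Set.mem_singleton_iff, hall H hH, hcard]
    · rintro rfl
      let H : EOGraph (Fin n) :=
        { graph := ⊤
          lab := fun e => ((Fintype.equivFin (Sym2 (Fin n)) e : ℕ) : ℝ)
          inj := by
            intro e _ e' _ h
            exact (Fintype.equivFin (Sym2 (Fin n))).injective (Fin.ext (Nat.cast_injective h)) }
      refine ⟨H, ?_, hcard⟩
      intro u v huv hadj
      exact absurd ((SimpleGraph.top_adj u v).mpr huv) hadj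
  unfold ssatE
  rw [hset, csInf_singleton]

theorem result :
    (∀ (k : ℕ) (G : EOGraph (Fin k)), G.graph.edgeSet.Nonempty →
      (fun n : ℕ => (ssatE n G : ℝ)) =O[atTop]
        (fun n : ℕ => (n : ℝ) * Real.log n / Real.log (Real.log n))) ∧
    (∀ (k : ℕ) (G : EOGraph (Fin k)), G.graph.edgeSet.Nonempty →
      Tendsto (fun n : ℕ => (ssatE n G : ℝ) / ((n : ℝ) * Real.log n)) atTop (nhds 0)) ∧
    ¬ ∃ (k : ℕ) (G : EOGraph (Fin k)),
      (fun n : ℕ => (ssatE n G : ℝ)) =Θ[atTop] (fun n : ℕ => (n : ℝ) * Real.log n) := by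
  have hA : ∀ (k : ℕ) (G : EOGraph (Fin k)), G.graph.edgeSet.Nonempty →
      (fun n : ℕ => (ssatE n G : ℝ)) =O[atTop]
        (fun n : ℕ => (n : ℝ) * Real.log n / Real.log (Real.log n)) := fun k G hG => ssatE_isBigO G hG
  have hB : ∀ (k : ℕ) (G : EOGraph (Fin k)), G.graph.edgeSet.Nonempty →
      (fun n : ℕ => (ssatE n G : ℝ)) =o[atTop] (fun n : ℕ => (n : ℝ) * Real.log n) :=
    fun k G hG => (hA k G hG).trans_isLittleO little
  have hne : ∀ᶠ n : ℕ in atTop, (n : ℝ) * Real.log n ≠ 0 := by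
    filter_upwards [eventually_ge_atTop 2] with n hn
    have h1 : (1 : ℝ) < n := by exact_mod_cast (by omega : 1 < n)
    have h2 : 0 < Real.log n := Real.log_pos h1
    positivity
  refine ⟨hA, fun k G hG => (hB k G hG).tendsto_div_nhds_zero, ?_⟩
  rintro ⟨k, G, hΘ⟩
  by_cases hG : G.graph.edgeSet.Nonempty
  · -- `n log n = O(ssat) = o(n log n)`
    have h1 : (fun n : ℕ => (n : ℝ) * Real.log n) =o[atTop] (fun n : ℕ => (n : ℝ) * Real.log n) :=
      hΘ.2.trans_isLittleO (hB k G hG)
    have h2 := h1.bound (show (0 : ℝ) < 1 / 2 by norm_num)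
    obtain ⟨n, hn1, hn2⟩ := (h2.and hne).exists
    have h3 : 0 < ‖(n : ℝ) * Real.log n‖ := norm_pos_iff.mpr hn2
    linarith
  · -- `n choose 2 = O(n log n)` is false
    have h1 : (fun n : ℕ => (n : ℝ)) =o[atTop] (fun n : ℕ => (n : ℝ)) := by
      have h2 : (fun n : ℕ => (n : ℝ) * n) =O[atTop] (fun n : ℕ => (ssatE n G : ℝ)) := by
        apply IsBigO.of_bound 4
        filter_upwards [eventually_ge_atTop 2] with n hn
        rw [ssatE_edgeless G hG n, Real.norm_natCast, Real.norm_of_nonneg (by positivity),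
          Nat.cast_choose_two]
        have h1 : (2 : ℝ) ≤ n := by exact_mod_cast hn
        nlinarith
      have h3 : (fun n : ℕ => (n : ℝ) * n) =O[atTop] (fun n : ℕ => (n : ℝ) * Real.log n) := h2.trans hΘ.1
      have h4 : (fun n : ℕ => (n : ℝ) * Real.log n) =o[atTop] (fun n : ℕ => (n : ℝ) * n) := by
        apply (isBigO_refl (fun n : ℕ => (n : ℝ)) atTop).mul_isLittleO
        exact Real.isLittleO_log_id_atTop.comp_tendsto tendsto_natCast_atTop_atTop
      have h5 : (fun n : ℕ => (n : ℝ) * n) =o[atTop] (fun n : ℕ => (n : ℝ) * n) := h3.trans_isLittleO h4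
      have h6 := h5.bound (show (0 : ℝ) < 1 / 2 by norm_num)
      obtain ⟨n, hn1, hn2⟩ := (h6.and (eventually_ge_atTop 1)).exists
      exfalso
      have h7 : (1 : ℝ) ≤ n := by exact_mod_cast hn2
      rw [Real.norm_of_nonneg (by positivity)] at hn1
      nlinarith
    have h6 := h1.bound (show (0 : ℝ) < 1 / 2 by norm_num)
    obtain ⟨n, hn1, hn2⟩ := (h6.and (eventually_ge_atTop 1)).exists
    have h7 : (1 : ℝ) ≤ n := by exact_mod_cast hn2
    rw [Real.norm_natCast] at hn1
    linarith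

end Pool.Agent.Results.MP_865e4a_co.NoThetaNLogN
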